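import Pool.Agent.Helper69_KReg.Defs

set_option autoImplicit false

/-! # k-regular maps: linear algebra of a relation on at most five points -/

namespace Helper69.KReg

open Finset

section Orth

variable {ι : Type*} [Fintype ι]

/-- two linearly independent families which are orthogonal for a nondegenerate diagonal form -/
theorem orth_dim {κ κ' : Type*} [Fintype κ] [Fintype κ'] (lam : ι → ℂ)
    (hlam : ∀ i, lam i ≠ 0) (u : κ → ι → ℂ) (v : κ' → ι → ℂ) (hu : LinearIndependent ℂ u)
    (hv : LinearIndependent ℂ v) (huv : ∀ i j, ∑ p, lam p * (u i p * v j p) = 0) :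
    Fintype.card κ + Fintype.card κ' ≤ Fintype.card ι := by
  classical
  let D : (ι → ℂ) →ₗ[ℂ] (ι → ℂ) :=
    { toFun := fun g p => lam p * g p
      map_add' := fun g h => by funext p; simp [mul_add]
      map_smul' := fun c g => by funext p; simp [mul_left_comm] }
  have hD : LinearMap.ker D = ⊥ := by
    rw [LinearMap.ker_eq_bot']
    intro g hg
    funext p
    have := congrFun hg p
    exact (mul_eq_zero.mp this).resolve_left (hlam p)
  let M : Matrix κ ι ℂ := fun i p => lam p * u i p
  have hM : LinearIndependent ℂ M.row := by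
    have := hu.map' D hD
    exact this
  have hrank : M.rank = Fintype.card κ := hM.rank_matrix
  have hker : ∀ j, v j ∈ LinearMap.ker M.mulVecLin := by
    intro j
    rw [LinearMap.mem_ker]
    funext i
    simp only [Matrix.mulVecLin_apply, Matrix.mulVec, dotProduct, Pi.zero_apply]
    rw [← huv i j]
    refine Finset.sum_congr rfl fun p _ => ?_
    show lam p * u i p * v j p = _
    ring
  let v' : κ' → LinearMap.ker M.mulVecLin := fun j => ⟨v j, hker j⟩
  have hv' : LinearIndependent ℂ v' := by
    refine LinearIndependent.of_comp (LinearMap.ker M.mulVecLin).subtype ?_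
    exact hv
  have h1 := hv'.fintype_card_le_finrank
  have h2 := LinearMap.finrank_range_add_finrank_ker M.mulVecLin
  rw [Module.finrank_fintype_fun_eq_card] at h2
  have h3 : Module.finrank ℂ (LinearMap.range M.mulVecLin) = Fintype.card κ := hrank
  omega

/-- Vandermonde: a relation on few points of a line is trivial -/
theorem vander (lam tau : ι → ℂ) (ht : Function.Injective tau)
    (h : ∀ j < Fintype.card ι, ∑ p, lam p * tau p ^ j = 0) : ∀ p, lam p = 0 := by
  classical
  let e := Fintype.equivFin ι
  have h1 : (fun i => lam (e.symm i)) = 0 := by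
    refine Matrix.eq_zero_of_forall_pow_sum_mul_pow_eq_zero
      (f := fun i => tau (e.symm i)) (ht.comp e.symm.injective) ?_
    intro i
    rw [← h i i.2, ← e.symm.sum_comp]
  intro p
  have := congrFun h1 (e p)
  simpa using this

/-- a nonconstant function is independent of the constants -/
theorem li_pair [Nonempty ι] (g : ι → ℂ) (hg : ¬ ∃ c, ∀ p, g p = c) :
    LinearIndependent ℂ ![(1 : ι → ℂ), g] := by
  rw [LinearIndependent.pair_iff]
  intro s t hst
  have ht : t = 0 := by
    by_contra ht
    refine hg ⟨-(s / t), fun p => ?_⟩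
    have h1 := congrFun hst p
    simp only [Pi.add_apply, Pi.smul_apply, Pi.one_apply, smul_eq_mul, mul_one,
      Pi.zero_apply] at h1
    field_simp
    linear_combination h1
  subst ht
  refine ⟨?_, rfl⟩
  obtain ⟨p⟩ := ‹Nonempty ι›
  have h1 := congrFun hst p
  simpa using h1

/-- if `1, τ` are independent and `1, τ, g` are not, then `g` is an affine function of `τ` -/
theorem triple_dep (tau g : ι → ℂ) (h2 : LinearIndependent ℂ ![(1 : ι → ℂ), tau])
    (h3 : ¬ LinearIndependent ℂ ![(1 : ι → ℂ), tau, g]) :
    ∃ a b : ℂ, ∀ p, g p = a + b * tau p := by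
  rw [Fintype.not_linearIndependent_iff] at h3
  obtain ⟨c, hc, i, hi⟩ := h3
  simp only [Fin.sum_univ_three, Matrix.cons_val_zero, Matrix.cons_val_one,
    Matrix.cons_val] at hc
  have hc2 : c 2 ≠ 0 := by
    intro h0
    rw [h0, zero_smul, add_zero] at hc
    rw [LinearIndependent.pair_iff] at h2
    obtain ⟨h00, h01⟩ := h2 _ _ hc
    fin_cases i
    · exact hi h00
    · exact hi h01
    · exact hi h0
  refine ⟨-(c 0 / c 2), -(c 1 / c 2), fun p => ?_⟩
  have h1 := congrFun hc p
  simp only [Pi.add_apply, Pi.smul_apply, Pi.one_apply, smul_eq_mul, mul_one,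
      Pi.zero_apply] at h1
  field_simp
  linear_combination h1

end Orth

section Relation

variable {ι : Type*} [Fintype ι]

/-- an affine relation, with nonzero coefficients `lam`, between distinct points with coordinate
functions `X i` (which vanish for `i ≥ n`) -/
structure Rel (n : ℕ) (lam : ι → ℂ) (X : ℕ → ι → ℂ) : Prop where
  lam_ne : ∀ p, lam p ≠ 0
  zero : ∀ i, n ≤ i → ∀ p, X i p = 0
  inj : ∀ p q, (∀ i, X i p = X i q) → p = q
  one : ∑ p, lam p = 0
  lin : ∀ i, ∑ p, lam p * X i p = 0

/-- second moments -/
def Q (lam : ι → ℂ) (X : ℕ → ι → ℂ) (i j : ℕ) : ℂ := ∑ p, lam p * (X i p * X j p)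

theorem Q_symm (lam : ι → ℂ) (X : ℕ → ι → ℂ) (i j : ℕ) : Q lam X i j = Q lam X j i := by
  unfold Q
  exact Finset.sum_congr rfl fun p _ => by ring

variable {n : ℕ} {lam : ι → ℂ} {X : ℕ → ι → ℂ}

theorem Rel.Q_zero (h : Rel n lam X) {i : ℕ} (hi : n ≤ i) (j : ℕ) : Q lam X i j = 0 := by
  unfold Q
  refine Finset.sum_eq_zero fun p _ => ?_
  rw [h.zero i hi p]
  ring

/-- the support of the lowest nonzero antidiagonal of the matrix of second moments -/
theorem Rel.antidiag [Nonempty ι] (h : Rel n lam X) (s : ℕ)
    (hs : ∀ i j, i + j < s → Q lam X i j = 0) :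
    ((range (s + 1)).filter (fun i => Q lam X i (s - i) ≠ 0)).card + 2 ≤ Fintype.card ι := by
  classical
  set D := (range (s + 1)).filter (fun i => Q lam X i (s - i) ≠ 0) with hD
  have hDs : ∀ d ∈ D, d ≤ s ∧ Q lam X d (s - d) ≠ 0 := by
    intro d hd
    rw [hD, mem_filter, mem_range] at hd
    exact ⟨by omega, hd.2⟩
  let v : Option D → ι → ℂ := fun o => o.elim 1 (fun d => X d)
  have hv : LinearIndependent ℂ v := by
    rw [Fintype.linearIndependent_iff]
    intro g hg
    rw [Fintype.sum_option] at hg
    have key : ∀ k : ℕ, ∀ d : D, s - (d : ℕ) = k → g (some d) = 0 := by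
      intro k
      induction k using Nat.strong_induction_on with
      | _ k ih =>
        intro d hd
        obtain ⟨hd1, hd2⟩ := hDs d d.2
        have h1 : ∑ p, lam p * ((g none • v none + ∑ d', g (some d') • v (some d')) p *
            X (s - d) p) = 0 := by
          rw [hg]
          simp
        have h2 : ∑ p, lam p * ((g none • v none + ∑ d', g (some d') • v (some d')) p *
            X (s - d) p) = g none * (∑ p, lam p * X (s - d) p) +
              ∑ d' : D, g (some d') * Q lam X d' (s - d) := by
          unfold Q
          simp_rw [Finset.mul_sum]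
          rw [Finset.sum_comm, ← Finset.sum_add_distrib]
          refine Finset.sum_congr rfl fun p _ => ?_
          simp only [Pi.add_apply, Pi.smul_apply, Finset.sum_apply, smul_eq_mul, v,
            Option.elim, Pi.one_apply, mul_one]
          rw [add_mul, mul_add, Finset.sum_mul, Finset.mul_sum]
          congr 1
          · ring
          · exact Finset.sum_congr rfl fun d' _ => by ring
        rw [h2, h.lin, mul_zero, zero_add, Finset.sum_eq_single d] at h1
        · exact (mul_eq_zero.mp h1).resolve_right hd2
        · intro d' _ hne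
          obtain ⟨hd1', hd2'⟩ := hDs d' d'.2
          have hne' : (d' : ℕ) ≠ d := fun e => hne (Subtype.ext e)
          rcases lt_or_gt_of_ne hne' with hlt | hgt
          · rw [hs _ _ (by omega), mul_zero]
          · rw [ih (s - d') (by omega) d' rfl, zero_mul]
        · intro hh; exact absurd (Finset.mem_univ _) hh
    have hsome : ∀ d : D, g (some d) = 0 := fun d => key _ d rfl
    have hnone : g none = 0 := by
      obtain ⟨p⟩ := ‹Nonempty ι›
      have h1 := congrFun hg p
      simpa [hsome, v] using h1
    intro o
    cases o with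
    | none => exact hnone
    | some d => exact hsome d
  let u : Unit → ι → ℂ := fun _ => 1
  have hu : LinearIndependent ℂ u := by
    refine LinearIndependent.of_subsingleton () ?_
    intro h0
    obtain ⟨p⟩ := ‹Nonempty ι›
    have := congrFun h0 p
    simp [u] at this
  have := orth_dim lam h.lam_ne u v hu hv (by
    intro _ o
    cases o with
    | none => simpa [u, v] using h.one
    | some d => simpa [u, v] using h.lin d)
  rw [Fintype.card_option, Fintype.card_coe, Fintype.card_unit] at this
  omega

end Relation

end Helper69.KReg
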