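import Pool.Agent.Helper69_KReg.Core

set_option autoImplicit false
set_option linter.unusedSectionVars false

/-! # k-regular maps: the cores of the constructions for k = 1, ..., 5 -/

namespace Helper69.KReg

open Finset

variable {ι : Type*} [Fintype ι] {n : ℕ} {lam : ι → ℂ} {X : ℕ → ι → ℂ}

/-- the sum along the lowest nonzero antidiagonal is nonzero if its support is a pair or a point -/
theorem sum_ne (s : ℕ) (D : Finset ℕ)
    (hD : D = (range (s + 1)).filter (fun i => Q lam X i (s - i) ≠ 0)) {a : ℕ} (ha : a ∈ D)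
    (h : ∀ c ∈ D, c = a ∨ c = s - a) :
    ∑ i ∈ range (s + 1), Q lam X i (s - i) ≠ 0 := by
  classical
  have hsum : ∑ i ∈ range (s + 1), Q lam X i (s - i) = ∑ i ∈ D, Q lam X i (s - i) := by
    rw [hD]
    symm
    refine Finset.sum_filter_of_ne ?_
    intro i _ hi
    exact hi
  have hmem : ∀ d, d ∈ D ↔ d ≤ s ∧ Q lam X d (s - d) ≠ 0 := by
    intro d
    rw [hD, mem_filter, mem_range]
    constructor
    · rintro ⟨h1, h2⟩; exact ⟨by omega, h2⟩
    · rintro ⟨h1, h2⟩; exact ⟨by omega, h2⟩
  obtain ⟨ha1, ha2⟩ := (hmem a).mp ha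
  rw [hsum]
  by_cases hc : a = s - a
  · have : D = {a} := by
      ext c
      rw [mem_singleton]
      constructor
      · intro hcD
        rcases h c hcD with h1 | h1
        · exact h1
        · omega
      · rintro rfl; exact ha
    rw [this, Finset.sum_singleton]
    exact ha2
  · have hb : s - a ∈ D := by
      rw [hmem]
      refine ⟨by omega, ?_⟩
      rw [show s - (s - a) = a by omega, Q_symm]
      exact ha2
    have : D = {a, s - a} := by
      ext c
      rw [mem_insert, mem_singleton]
      constructor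
      · exact h c
      · rintro (rfl | rfl)
        · exact ha
        · exact hb
    rw [this, Finset.sum_pair hc, show s - (s - a) = a by omega, Q_symm lam X (s - a) a, ← two_mul]
    exact mul_ne_zero two_ne_zero ha2

/-- symmetry of the support of an antidiagonal -/
theorem supp_symm (s : ℕ) (D : Finset ℕ)
    (hD : D = (range (s + 1)).filter (fun i => Q lam X i (s - i) ≠ 0)) {c : ℕ} (hc : c ∈ D) :
    s - c ∈ D ∧ c ≤ s := by
  rw [hD, mem_filter, mem_range] at hc
  refine ⟨?_, by omega⟩
  rw [hD, mem_filter, mem_range]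
  refine ⟨by omega, ?_⟩
  rw [show s - (s - c) = c by omega, Q_symm]
  exact hc.2

/-- four points: the lowest nonzero antidiagonal has nonzero sum -/
theorem Rel.sum_ne_four [Nonempty ι] (h : Rel n lam X) (hcard : Fintype.card ι ≤ 4) (s : ℕ)
    (hs : ∀ i j, i + j < s → Q lam X i j = 0) {a : ℕ} (ha : a ≤ s) (hne : Q lam X a (s - a) ≠ 0) :
    ∑ i ∈ range (s + 1), Q lam X i (s - i) ≠ 0 := by
  classical
  have h1 := h.antidiag s hs
  set D := (range (s + 1)).filter (fun i => Q lam X i (s - i) ≠ 0) with hD
  have haD : a ∈ D := by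
    rw [hD, mem_filter, mem_range]
    exact ⟨by omega, hne⟩
  refine sum_ne s D hD haD ?_
  intro c hc
  by_contra hcon
  push Not at hcon
  obtain ⟨hc1, hc2⟩ := hcon
  obtain ⟨hbD, -⟩ := supp_symm s D hD haD
  obtain ⟨hdD, hcs⟩ := supp_symm s D hD hc
  by_cases hcen : a = s - a
  · have hsub : ({a, c, s - c} : Finset ℕ) ⊆ D := by
      intro x hx
      simp only [mem_insert, mem_singleton] at hx
      rcases hx with rfl | rfl | rfl
      · exact haD
      · exact hc
      · exact hdD
    have h3 : ({a, c, s - c} : Finset ℕ).card = 3 := by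
      rw [Finset.card_eq_three]
      refine ⟨a, c, s - c, ?_, ?_, ?_, rfl⟩
      · exact fun e => hc1 e.symm
      · omega
      · omega
    have := Finset.card_le_card hsub
    omega
  · have hsub : ({a, s - a, c} : Finset ℕ) ⊆ D := by
      intro x hx
      simp only [mem_insert, mem_singleton] at hx
      rcases hx with rfl | rfl | rfl
      · exact haD
      · exact hbD
      · exact hc
    have h3 : ({a, s - a, c} : Finset ℕ).card = 3 := by
      rw [Finset.card_eq_three]
      refine ⟨a, s - a, c, hcen, ?_, ?_, rfl⟩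
      · exact fun e => hc1 e.symm
      · exact fun e => hc2 e.symm
    have := Finset.card_le_card hsub
    omega

/-- five points, zero diagonal: the lowest nonzero antidiagonal has nonzero sum -/
theorem Rel.sum_ne_five [Nonempty ι] (h : Rel n lam X) (hcard : Fintype.card ι ≤ 5)
    (hdiag : ∀ i, Q lam X i i = 0) (s : ℕ)
    (hs : ∀ i j, i + j < s → Q lam X i j = 0) {a : ℕ} (ha : a ≤ s) (hne : Q lam X a (s - a) ≠ 0) :
    ∑ i ∈ range (s + 1), Q lam X i (s - i) ≠ 0 := by
  classical
  have h1 := h.antidiag s hs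
  set D := (range (s + 1)).filter (fun i => Q lam X i (s - i) ≠ 0) with hD
  have haD : a ∈ D := by
    rw [hD, mem_filter, mem_range]
    exact ⟨by omega, hne⟩
  have hcen : ∀ c ∈ D, c ≠ s - c := by
    intro c hc e
    rw [hD, mem_filter] at hc
    rw [← e] at hc
    exact hc.2 (hdiag c)
  refine sum_ne s D hD haD ?_
  intro c hc
  by_contra hcon
  push Not at hcon
  obtain ⟨hc1, hc2⟩ := hcon
  obtain ⟨hbD, -⟩ := supp_symm s D hD haD
  obtain ⟨hdD, hcs⟩ := supp_symm s D hD hc
  have hcc := hcen c hc
  have hca := hcen a haD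
  have hsub : ({a, s - a, c, s - c} : Finset ℕ) ⊆ D := by
    intro x hx
    simp only [mem_insert, mem_singleton] at hx
    rcases hx with rfl | rfl | rfl | rfl
    · exact haD
    · exact hbD
    · exact hc
    · exact hdD
  have h3 : ({a, s - a, c, s - c} : Finset ℕ).card = 4 := by
    rw [Finset.card_insert_of_notMem, Finset.card_eq_three.mpr ⟨s - a, c, s - c, ?_, ?_, ?_, rfl⟩]
    · exact fun e => hc2 e.symm
    · omega
    · exact hcc
    · simp only [mem_insert, mem_singleton]
      omega
  have := Finset.card_le_card hsub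
  omega

/-- four points: a coordinate in the kernel of the second moments is constant, or all second
moments vanish -/
theorem Rel.const_four [Nonempty ι] (h : Rel n lam X) (hcard : Fintype.card ι ≤ 4) {i : ℕ}
    (hi : ∀ j, Q lam X i j = 0) (hnc : ¬ ∃ c, ∀ p, X i p = c) : ∀ a b, Q lam X a b = 0 := by
  intro a b
  have h2 := li_pair (X i) hnc
  by_cases h3 : LinearIndependent ℂ ![(1 : ι → ℂ), X i, X a]
  · have := orth_dim lam h.lam_ne _ _ h2 h3 (by
      intro r t
      fin_cases r <;> fin_cases t
      · simpa using h.one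
      · simpa using h.lin i
      · simpa using h.lin a
      · simpa using h.lin i
      · exact hi i
      · exact hi a)
    simp only [Fintype.card_fin] at this
    omega
  · obtain ⟨α, β, hab⟩ := triple_dep _ _ h2 h3
    have : Q lam X a b = α * (∑ p, lam p * X b p) + β * Q lam X i b := by
      unfold Q
      rw [Finset.mul_sum, Finset.mul_sum, ← Finset.sum_add_distrib]
      refine Finset.sum_congr rfl fun p _ => ?_
      rw [hab p]
      ring
    rw [this, h.lin, hi, mul_zero, mul_zero, add_zero]

/-- five points, zero diagonal: a coordinate in the kernel of the second moments is constant, or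
all second moments vanish -/
theorem Rel.const_five [Nonempty ι] (h : Rel n lam X) (hcard : Fintype.card ι ≤ 5)
    (hdiag : ∀ i, Q lam X i i = 0) {i : ℕ}
    (hi : ∀ j, Q lam X i j = 0) (hnc : ¬ ∃ c, ∀ p, X i p = c) : ∀ a b, Q lam X a b = 0 := by
  intro a b
  have h2 := li_pair (X i) hnc
  have h4 : ¬ LinearIndependent ℂ ![(1 : ι → ℂ), X i, X a, X b] := by
    intro h4
    have := orth_dim lam h.lam_ne _ _ h2 h4 (by
      intro r t
      fin_cases r <;> fin_cases t
      · simpa using h.one
      · simpa using h.lin i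
      · simpa using h.lin a
      · simpa using h.lin b
      · simpa using h.lin i
      · exact hi i
      · exact hi a
      · exact hi b)
    simp only [Fintype.card_fin] at this
    omega
  rw [Fintype.not_linearIndependent_iff] at h4
  obtain ⟨c, hc, k, hk⟩ := h4
  simp only [Fin.sum_univ_four, Matrix.cons_val_zero, Matrix.cons_val_one,
    Matrix.cons_val] at hc
  have hpair : ∀ j, c 2 * Q lam X a j + c 3 * Q lam X b j = 0 := by
    intro j
    have h5 : ∑ p, lam p * ((c 0 • (1 : ι → ℂ) + c 1 • X i + c 2 • X a + c 3 • X b) p * X j p) =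
        c 0 * (∑ p, lam p * X j p) + c 1 * Q lam X i j + c 2 * Q lam X a j +
          c 3 * Q lam X b j := by
      unfold Q
      rw [Finset.mul_sum, Finset.mul_sum, Finset.mul_sum, Finset.mul_sum,
        ← Finset.sum_add_distrib, ← Finset.sum_add_distrib, ← Finset.sum_add_distrib]
      refine Finset.sum_congr rfl fun p _ => ?_
      simp only [Pi.add_apply, Pi.smul_apply, Pi.one_apply, smul_eq_mul]
      ring
    rw [hc, h.lin, hi] at h5
    simp only [Pi.zero_apply, zero_mul, mul_zero, Finset.sum_const_zero, zero_add] at h5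
    exact h5.symm
  have ha := hpair a
  have hb := hpair b
  rw [hdiag, mul_zero, zero_add, Q_symm] at ha
  rw [hdiag, mul_zero, add_zero] at hb
  by_contra hne
  have hc3 : c 3 = 0 := (mul_eq_zero.mp ha).resolve_right hne
  have hc2 : c 2 = 0 := (mul_eq_zero.mp hb).resolve_right hne
  rw [hc3, hc2, zero_smul, zero_smul, add_zero, add_zero] at hc
  rw [LinearIndependent.pair_iff] at h2
  obtain ⟨h00, h01⟩ := h2 _ _ hc
  fin_cases k
  · exact hk h00
  · exact hk h01
  · exact hk hc2
  · exact hk hc3

/-- at most five points with vanishing second moments, or at most three points, are collinear -/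
theorem Rel.collinear [Nonempty ι] (h : Rel n lam X)
    (hcard : Fintype.card ι ≤ 3 ∨ (Fintype.card ι ≤ 5 ∧ ∀ i j, Q lam X i j = 0)) {a : ℕ}
    (hnc : ¬ ∃ c, ∀ p, X a p = c) (b : ℕ) : ∃ α β : ℂ, ∀ p, X b p = α + β * X a p := by
  have h2 := li_pair (X a) hnc
  refine triple_dep _ _ h2 ?_
  intro h3
  rcases hcard with hcard | ⟨hcard, hQ⟩
  · have hu : LinearIndependent ℂ ![(1 : ι → ℂ)] := by
      refine LinearIndependent.of_subsingleton 0 ?_
      intro h0
      obtain ⟨p⟩ := ‹Nonempty ι›
      have := congrFun h0 p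
      simp at this
    have := orth_dim lam h.lam_ne _ _ hu h3 (by
      intro r t
      fin_cases r; fin_cases t
      · simpa using h.one
      · simpa using h.lin a
      · simpa using h.lin b)
    simp only [Fintype.card_fin] at this
    omega
  · have := orth_dim lam h.lam_ne _ _ h3 h3 (by
      intro r t
      fin_cases r <;> fin_cases t
      · simpa using h.one
      · simpa using h.lin a
      · simpa using h.lin b
      · simpa using h.lin a
      · exact hQ a a
      · exact hQ a b
      · simpa using h.lin b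
      · exact hQ b a
      · exact hQ b b)
    simp only [Fintype.card_fin] at this
    omega

/-- some coordinate is not constant -/
theorem Rel.exists_nonconst [Nonempty ι] (h : Rel n lam X) : ∃ a < n, ¬ ∃ c, ∀ p, X a p = c := by
  by_contra hcon
  push Not at hcon
  have hall : ∀ i, ∃ c, ∀ p, X i p = c := by
    intro i
    by_cases hi : i < n
    · exact hcon i hi
    · exact ⟨0, fun p => h.zero i (by omega) p⟩
  obtain ⟨p⟩ := ‹Nonempty ι›
  have hsub : ∀ q, q = p := by
    intro q
    refine h.inj q p fun i => ?_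
    obtain ⟨c, hc⟩ := hall i
    rw [hc, hc]
  have h1 := h.one
  have huniv : (Finset.univ : Finset ι) = {p} := by
    ext q
    simp [hsub q]
  rw [huniv, Finset.sum_singleton] at h1
  exact h.lam_ne p h1

/-- the end of the argument: the relation kills enough powers of a coordinate on which all others
depend affinely -/
theorem Rel.finish [Nonempty ι] (h : Rel n lam X) {a : ℕ}
    (hcol : ∀ b, ∃ α β : ℂ, ∀ p, X b p = α + β * X a p)
    (hpow : ∀ j < Fintype.card ι, ∑ p, lam p * X a p ^ j = 0) : False := by
  have hinj : Function.Injective (X a) := by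
    intro p q hpq
    refine h.inj p q fun i => ?_
    obtain ⟨α, β, hab⟩ := hcol i
    rw [hab, hab, hpq]
  obtain ⟨p⟩ := ‹Nonempty ι›
  exact h.lam_ne p (vander lam (X a) hinj hpow p)

/-- core of the case `k ≤ 3` -/
theorem Rel.core_three (h : Rel n lam X) (hcard : Fintype.card ι ≤ 3)
    (hdiag : Fintype.card ι = 3 → ∀ i, Q lam X i i = 0) : IsEmpty ι := by
  by_contra hne
  rw [not_isEmpty_iff] at hne
  obtain ⟨a, -, hnc⟩ := h.exists_nonconst
  refine h.finish (h.collinear (Or.inl hcard) hnc) ?_
  intro j hj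
  have hj3 : j = 0 ∨ j = 1 ∨ j = 2 := by omega
  rcases hj3 with rfl | rfl | rfl
  · simpa using h.one
  · simpa using h.lin a
  · have h3 : Fintype.card ι = 3 := by omega
    have := hdiag h3 a
    unfold Q at this
    rw [← this]
    exact Finset.sum_congr rfl fun p _ => by ring

/-- the lowest nonzero antidiagonal -/
theorem exists_lowest (hQ : ¬ ∀ i j, Q lam X i j = 0) :
    ∃ s a, (∀ i j, i + j < s → Q lam X i j = 0) ∧ a ≤ s ∧ Q lam X a (s - a) ≠ 0 := by
  classical
  push Not at hQ
  obtain ⟨i, j, hij⟩ := hQ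
  have hex : ∃ s, ∃ a ≤ s, Q lam X a (s - a) ≠ 0 :=
    ⟨i + j, i, by omega, by rwa [show i + j - i = j by omega]⟩
  obtain ⟨a, ha, hne⟩ := Nat.find_spec hex
  refine ⟨Nat.find hex, a, ?_, ha, hne⟩
  intro i' j' hlt
  by_contra hcon
  exact Nat.find_min hex hlt ⟨i', by omega, by rwa [show i' + j' - i' = j' by omega]⟩

/-- core of the case `k = 4` -/
theorem Rel.core_four (h : Rel n lam X) (hcard : Fintype.card ι ≤ 4)
    (hh : ∀ s < n, ∑ i ∈ range (s + 1), Q lam X i (s - i) = 0)
    (hc : ∀ i < n, ∑ p, lam p * X i p ^ 3 =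
      ∑ j ∈ range (n + i + 1), Q lam X j (n + i - j)) : IsEmpty ι := by
  classical
  by_contra hne
  rw [not_isEmpty_iff] at hne
  have hQ : ∀ i j, Q lam X i j = 0 := by
    by_contra hQ
    obtain ⟨s, a, hs, ha, hQa⟩ := exists_lowest hQ
    have hsum := h.sum_ne_four hcard s hs ha hQa
    have hsn : n ≤ s := by
      by_contra hlt
      exact hsum (hh s (by omega))
    have han : a < n := by
      by_contra hge
      exact hQa (h.Q_zero (by omega) _)
    have hbn : s - a < n := by
      by_contra hge
      rw [Q_symm] at hQa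
      exact hQa (h.Q_zero (by omega) _)
    obtain ⟨i, hi⟩ : ∃ i, s = n + i := ⟨s - n, by omega⟩
    have hrow : ∀ j, Q lam X i j = 0 := by
      intro j
      by_cases hj : j < n
      · exact hs _ _ (by omega)
      · rw [Q_symm]
        exact h.Q_zero (by omega) _
    have hconst : ∃ c, ∀ p, X i p = c := by
      by_contra hnc
      exact hQ (h.const_four hcard hrow hnc)
    obtain ⟨c, hcc⟩ := hconst
    have h3 := hc i (by omega)
    rw [← hi] at h3
    refine hsum ?_
    rw [← h3]
    simp_rw [hcc]
    rw [← Finset.sum_mul, h.one, zero_mul]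
  obtain ⟨a, han, hnc⟩ := h.exists_nonconst
  refine h.finish (h.collinear (Or.inr ⟨by omega, hQ⟩) hnc) ?_
  intro j hj
  have hj3 : j = 0 ∨ j = 1 ∨ j = 2 ∨ j = 3 := by omega
  rcases hj3 with rfl | rfl | rfl | rfl
  · simpa using h.one
  · simpa using h.lin a
  · have := hQ a a
    unfold Q at this
    rw [← this]
    exact Finset.sum_congr rfl fun p _ => by ring
  · rw [hc a han]
    exact Finset.sum_eq_zero fun i _ => hQ _ _

/-- core of the case `k = 5` -/
theorem Rel.core_five (h : Rel n lam X) (hcard : Fintype.card ι ≤ 5)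
    (hdiag : ∀ i, Q lam X i i = 0)
    (hh : ∀ s < n, ∑ i ∈ range (s + 1), Q lam X i (s - i) = 0)
    (hc0 : ∑ p, lam p * X 0 p ^ 3 = ∑ j ∈ range (n + 1), Q lam X j (n - j))
    (hc : ∀ i, i + 1 < n → ∑ p, lam p * X (i + 1) p ^ 3 = ∑ p, lam p * X i p ^ 4 +
      ∑ j ∈ range (n + (i + 1) + 1), Q lam X j (n + (i + 1) - j))
    (hlast : ∑ p, lam p * X (n - 1) p ^ 4 = 0) : IsEmpty ι := by
  classical
  by_contra hne
  rw [not_isEmpty_iff] at hne
  have hQ : ∀ i j, Q lam X i j = 0 := by
    by_contra hQ
    obtain ⟨s, a, hs, ha, hQa⟩ := exists_lowest hQ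
    have hsum := h.sum_ne_five hcard hdiag s hs ha hQa
    have hsn : n ≤ s := by
      by_contra hlt
      exact hsum (hh s (by omega))
    have han : a < n := by
      by_contra hge
      exact hQa (h.Q_zero (by omega) _)
    have hbn : s - a < n := by
      by_contra hge
      rw [Q_symm] at hQa
      exact hQa (h.Q_zero (by omega) _)
    obtain ⟨i, hi⟩ : ∃ i, s = n + i := ⟨s - n, by omega⟩
    have hconst : ∀ i' ≤ i, ∃ c, ∀ p, X i' p = c := by
      intro i' hi'
      have hrow : ∀ j, Q lam X i' j = 0 := by
        intro j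
        by_cases hj : j < n
        · exact hs _ _ (by omega)
        · rw [Q_symm]
          exact h.Q_zero (by omega) _
      by_contra hnc
      exact hQ (h.const_five hcard hdiag hrow hnc)
    have hpow : ∀ i' ≤ i, ∀ k : ℕ, ∑ p, lam p * X i' p ^ k = 0 := by
      intro i' hi' k
      obtain ⟨c, hcc⟩ := hconst i' hi'
      simp_rw [hcc]
      rw [← Finset.sum_mul, h.one, zero_mul]
    refine hsum ?_
    rcases Nat.eq_zero_or_pos i with h0 | h0
    · subst h0
      rw [add_zero] at hi
      rw [hi, ← hc0]
      exact hpow 0 le_rfl 3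
    · obtain ⟨i', rfl⟩ : ∃ i', i = i' + 1 := ⟨i - 1, by omega⟩
      have h3 := hc i' (by omega)
      rw [hpow _ le_rfl 3, hpow i' (by omega) 4, zero_add, ← hi] at h3
      exact h3.symm
  obtain ⟨a, han, hnc⟩ := h.exists_nonconst
  have hcol := h.collinear (Or.inr ⟨by omega, hQ⟩) hnc
  have hQ0 : ∀ s : ℕ, ∑ j ∈ range (s + 1), Q lam X j (s - j) = 0 :=
    fun s => Finset.sum_eq_zero fun i _ => hQ _ _
  rw [hQ0] at hc0
  have hc' : ∀ i, i + 1 < n → ∑ p, lam p * X (i + 1) p ^ 3 = ∑ p, lam p * X i p ^ 4 := by
    intro i hi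
    rw [hc i hi, hQ0, add_zero]
  have h2 : ∑ p, lam p * X a p ^ 2 = 0 := by
    have := hQ a a
    unfold Q at this
    rw [← this]
    exact Finset.sum_congr rfl fun p _ => by ring
  choose α β hαβ using hcol
  have hthird : ∀ b, ∑ p, lam p * X b p ^ 3 = β b ^ 3 * ∑ p, lam p * X a p ^ 3 := by
    intro b
    have e : ∑ p, lam p * X b p ^ 3 = α b ^ 3 * ∑ p, lam p + 3 * α b ^ 2 * β b *
        (∑ p, lam p * X a p) + 3 * α b * β b ^ 2 * (∑ p, lam p * X a p ^ 2) +
          β b ^ 3 * ∑ p, lam p * X a p ^ 3 := by
      rw [Finset.mul_sum, Finset.mul_sum, Finset.mul_sum, Finset.mul_sum,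
        ← Finset.sum_add_distrib, ← Finset.sum_add_distrib, ← Finset.sum_add_distrib]
      refine Finset.sum_congr rfl fun p _ => ?_
      rw [hαβ b p]
      ring
    rw [e, h.one, h.lin, h2]
    ring
  have hthree : ∑ p, lam p * X a p ^ 3 = 0 := by
    by_contra h3
    have hβ : ∀ b < n, β b = 0 := by
      intro b
      induction b with
      | zero =>
        intro _
        have := hthird 0
        rw [hc0] at this
        exact pow_eq_zero_iff (by norm_num) |>.mp ((mul_eq_zero.mp this.symm).resolve_right h3)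
      | succ b ih =>
        intro hb
        have h4 := ih (by omega)
        have h5 : ∑ p, lam p * X b p ^ 4 = 0 := by
          have : ∀ p, lam p * X b p ^ 4 = lam p * α b ^ 4 := by
            intro p
            rw [hαβ b p, h4]
            ring
          simp_rw [this]
          rw [← Finset.sum_mul, h.one, zero_mul]
        have := hthird (b + 1)
        rw [hc' b hb, h5] at this
        exact pow_eq_zero_iff (by norm_num) |>.mp ((mul_eq_zero.mp this.symm).resolve_right h3)
    refine hnc ⟨α a, fun p => ?_⟩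
    have h6 := hαβ a p
    rw [hβ a han, zero_mul, add_zero] at h6
    exact h6
  have hfour : ∑ p, lam p * X a p ^ 4 = 0 := by
    by_cases hlt : a + 1 < n
    · rw [← hc' a hlt, hthird, hthree, mul_zero]
    · have : a = n - 1 := by omega
      rw [this]
      exact hlast
  have hcol' : ∀ b, ∃ α β : ℂ, ∀ p, X b p = α + β * X a p := fun b => ⟨α b, β b, hαβ b⟩
  refine h.finish hcol' ?_
  intro j hj
  have hj3 : j = 0 ∨ j = 1 ∨ j = 2 ∨ j = 3 ∨ j = 4 := by omega
  rcases hj3 with rfl | rfl | rfl | rfl | rfl
  · simpa using h.one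
  · simpa using h.lin a
  · exact h2
  · exact hthree
  · exact hfour

end Helper69.KReg
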