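import Mathlib

set_option autoImplicit false

/-! # k-regular maps of complex affine space: definitions -/

namespace Helper69.KReg

/-- `f : ℂ^n → ℂ^N` is `k`-regular: it is continuous, and the images of any `k` pairwise distinct
points are linearly independent over `ℂ`. -/
def IsKRegular (k n N : ℕ) (f : (Fin n → ℂ) → (Fin N → ℂ)) : Prop :=
  Continuous f ∧ ∀ x : Fin k → (Fin n → ℂ), Function.Injective x →
    LinearIndependent ℂ (fun i => f (x i))

/-- `f : ℂ^n → ℂ^N` is a polynomial map: every coordinate function is a polynomial with complex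
coefficients in the `n` coordinates. -/
def IsPolynomialMap (n N : ℕ) (f : (Fin n → ℂ) → (Fin N → ℂ)) : Prop :=
  ∃ P : Fin N → MvPolynomial (Fin n) ℂ, ∀ x j, f x j = MvPolynomial.eval x (P j)

end Helper69.KReg
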