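import Pool.Agent.Helper69_KReg.Defs

set_option autoImplicit false

/-! # The dimension bound for polynomial k-regular maps, from Krull's height theorem -/

namespace Helper69.KReg

open Finset MvPolynomial

section Height

variable {σ : Type} [DecidableEq σ]

/-- the homomorphism which sends the variables in `T` to zero -/
noncomputable def kill (T : Finset σ) : MvPolynomial σ ℂ →ₐ[ℂ] MvPolynomial σ ℂ :=
  aeval (fun i => if i ∈ T then 0 else X i)

theorem kill_X (T : Finset σ) (i : σ) : kill T (X i) = if i ∈ T then 0 else X i := by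
  simp [kill]

theorem kill_comp {T T' : Finset σ} (h : T ⊆ T') (g : MvPolynomial σ ℂ) :
    kill T' (kill T g) = kill T' g := by
  have : (kill T').comp (kill T) = kill T' := by
    refine MvPolynomial.algHom_ext fun i => ?_
    rw [AlgHom.comp_apply, kill_X, kill_X]
    by_cases hi : i ∈ T
    · rw [if_pos hi, map_zero, if_pos (h hi)]
    · rw [if_neg hi, kill_X]
  exact DFunLike.congr_fun this g

theorem height_kill (T : Finset σ) :
    (T.card : ℕ∞) ≤ (RingHom.ker (kill T)).height := by
  classical
  induction T using Finset.induction_on with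
  | empty => simp
  | insert t T ht ih =>
    have hlt : RingHom.ker (kill T) < RingHom.ker (kill (insert t T)) := by
      refine lt_of_le_of_ne ?_ ?_
      · intro g hg
        rw [RingHom.mem_ker] at hg ⊢
        rw [← kill_comp (Finset.subset_insert t T), hg, map_zero]
      · intro heq
        have h1 : (X t : MvPolynomial σ ℂ) ∈ RingHom.ker (kill (insert t T)) := by
          rw [RingHom.mem_ker, kill_X, if_pos (Finset.mem_insert_self t T)]
        rw [← heq, RingHom.mem_ker, kill_X, if_neg ht] at h1
        exact X_ne_zero t h1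
    have h1 : (RingHom.ker (kill T)).IsPrime := RingHom.ker_isPrime _
    have h2 : (RingHom.ker (kill (insert t T))).IsPrime := RingHom.ker_isPrime _
    have h3 := Ideal.height_add_one_le_of_lt_of_isPrime hlt
    rw [Finset.card_insert_of_notMem ht]
    push_cast
    exact (add_le_add_left ih 1).trans h3

end Height

/-- fewer points: a `k`-regular map sends at most `k` distinct points to independent vectors -/
theorem IsKRegular.finset {k n N : ℕ} {f : (Fin n → ℂ) → (Fin N → ℂ)} (hn : 1 ≤ n)
    (hf : IsKRegular k n N f) (Y : Finset (Fin n → ℂ)) (hY : Y.card ≤ k) :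
    LinearIndependent ℂ (fun y : Y => f y) := by
  classical
  have : Nonempty (Fin n) := ⟨⟨0, hn⟩⟩
  have : Infinite (Fin n → ℂ) := inferInstance
  obtain ⟨Y', hYY', hcard⟩ := Infinite.exists_superset_card_eq Y k hY
  let e : Fin k ≃ Y' := (Y'.equivFinOfCardEq hcard).symm
  have h1 := hf.2 (fun i => (e i : Fin n → ℂ)) (fun a b hab => e.injective (Subtype.ext hab))
  have h2 := h1.comp (fun y : Y => e.symm ⟨y, hYY' y.2⟩) (by
    intro a b hab
    have h3 := e.symm.injective hab
    have h5 : ((⟨a, hYY' a.2⟩ : Y') : Fin n → ℂ) = ((⟨b, hYY' b.2⟩ : Y') : Fin n → ℂ) :=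
      congrArg (fun t : Y' => (t : Fin n → ℂ)) h3
    exact Subtype.ext h5)
  have h4 : (fun y : Y => f y) =
      (fun i => f (e i : Fin n → ℂ)) ∘ (fun y : Y => e.symm ⟨y, hYY' y.2⟩) := by
    funext y
    show f y = f (e (e.symm ⟨y, hYY' y.2⟩) : Fin n → ℂ)
    rw [Equiv.apply_symm_apply]
  rw [h4]
  exact h2

/-- if no proper nonempty subset of the coefficients sums to zero, the points of a relation
coincide and the coefficients sum to zero -/
theorem IsKRegular.all_eq {k n N : ℕ} {f : (Fin n → ℂ) → (Fin N → ℂ)} (hn : 1 ≤ n)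
    (hf : IsKRegular k n N f) (x : Fin k → Fin n → ℂ) (lam : Fin k → ℂ)
    (hrel : ∑ i, lam i • f (x i) = 0)
    (hlam : ∀ S : Finset (Fin k), S.Nonempty → S ≠ univ → ∑ i ∈ S, lam i ≠ 0) :
    (∀ i j, x i = x j) ∧ ((0 < k) → ∑ i, lam i = 0) := by
  classical
  have hY := hf.finset hn (univ.image x) (Finset.card_image_le.trans (by simp))
  rw [Fintype.linearIndependent_iff] at hY
  have h1 := hY (fun y => ∑ i ∈ univ.filter (fun i => x i = y), lam i) (by
    rw [← hrel]
    have : ∀ y : (univ.image x : Finset (Fin n → ℂ)),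
        (∑ i ∈ univ.filter (fun i => x i = y), lam i) • f y =
          ∑ i ∈ univ.filter (fun i => x i = y), lam i • f (x i) := by
      intro y
      rw [Finset.sum_smul]
      refine Finset.sum_congr rfl fun i hi => ?_
      rw [mem_filter] at hi
      rw [hi.2]
    simp_rw [this]
    rw [Finset.sum_coe_sort (univ.image x)
      (fun y => ∑ i ∈ univ.filter (fun i => x i = y), lam i • f (x i))]
    exact Finset.sum_fiberwise_of_maps_to (fun i _ => Finset.mem_image_of_mem x (mem_univ i)) _)
  have h2 : ∀ i, univ.filter (fun j => x j = x i) = univ := by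
    intro i
    by_contra hne
    refine hlam _ ⟨i, by simp⟩ hne ?_
    exact h1 ⟨x i, Finset.mem_image_of_mem x (mem_univ i)⟩
  refine ⟨fun i j => ?_, fun hk => ?_⟩
  · have : i ∈ univ.filter (fun l => x l = x j) := by rw [h2 j]; exact mem_univ i
    rw [mem_filter] at this
    exact this.2
  · have := h1 ⟨x ⟨0, hk⟩, Finset.mem_image_of_mem x (mem_univ _)⟩
    simpa [h2] using this

/-- the index type of the variables: the point `x_0`, the coefficients `lam_i` (`i ≥ 1`), and the
variables to be killed: the differences `x_i - x_0` and the sum of all coefficients -/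
abbrev Vr (m n : ℕ) : Type := (Fin n ⊕ Fin m) ⊕ ((Fin m × Fin n) ⊕ Unit)

/-- the killed variables -/
def kv (m n : ℕ) : Finset (Vr m n) := univ.image Sum.inr

theorem card_kv (m n : ℕ) : (kv m n).card = m * n + 1 := by
  unfold kv
  rw [Finset.card_image_of_injective _ Sum.inr_injective, Finset.card_univ]
  simp

/-- the points as vectors of polynomials -/
noncomputable def pt (m n : ℕ) : Fin (m + 1) → Fin n → MvPolynomial (Vr m n) ℂ :=
  Fin.cases (fun a => X (Sum.inl (Sum.inl a)))
    (fun i a => X (Sum.inl (Sum.inl a)) + X (Sum.inr (Sum.inl (i, a))))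

/-- the coefficients as polynomials -/
noncomputable def cf (m n : ℕ) : Fin (m + 1) → MvPolynomial (Vr m n) ℂ :=
  Fin.cases (X (Sum.inr (Sum.inr ())) - ∑ i, X (Sum.inl (Sum.inr i)))
    (fun i => X (Sum.inl (Sum.inr i)))

/-- the equations -/
noncomputable def eqn (m n : ℕ) (P : MvPolynomial (Fin n) ℂ) : MvPolynomial (Vr m n) ℂ :=
  ∑ i, cf m n i * aeval (pt m n i) P

theorem sum_cf (m n : ℕ) : ∑ i, cf m n i = X (Sum.inr (Sum.inr ())) := by
  rw [Fin.sum_univ_succ]
  simp [cf]

theorem eval_kill (m n : ℕ) (z : Vr m n → ℂ) (hz : ∀ b, z (Sum.inr b) = 0)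
    (g : MvPolynomial (Vr m n) ℂ) : eval z (kill (kv m n) g) = eval z g := by
  have h : (aeval z : MvPolynomial (Vr m n) ℂ →ₐ[ℂ] ℂ).comp (kill (kv m n)) =
      (aeval z : MvPolynomial (Vr m n) ℂ →ₐ[ℂ] ℂ) := by
    refine MvPolynomial.algHom_ext fun i => ?_
    rw [AlgHom.comp_apply, kill_X]
    rcases i with i | i
    · rw [if_neg (by simp [kv])]
    · rw [if_pos (by simp [kv]), map_zero, aeval_X, hz]
  exact DFunLike.congr_fun h g

theorem eval_zero_of_ker (m n : ℕ) (z : Vr m n → ℂ) (hz : ∀ b, z (Sum.inr b) = 0)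
    {g : MvPolynomial (Vr m n) ℂ} (hg : g ∈ RingHom.ker (kill (kv m n))) : eval z g = 0 := by
  rw [← eval_kill m n z hz, (RingHom.mem_ker).mp hg, map_zero]

theorem kill_eqn (m n : ℕ) (P : MvPolynomial (Fin n) ℂ) :
    eqn m n P ∈ RingHom.ker (kill (kv m n)) := by
  rw [RingHom.mem_ker]
  unfold eqn
  rw [map_sum]
  have h1 : ∀ i : Fin (m + 1), kill (kv m n) (cf m n i * aeval (pt m n i) P) =
      kill (kv m n) (cf m n i) * aeval (fun a => (X (Sum.inl (Sum.inl a)) :
        MvPolynomial (Vr m n) ℂ)) P := by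
    intro i
    rw [map_mul]
    congr 1
    have h : (kill (kv m n)).comp (aeval (pt m n i)) = aeval (fun a =>
        (X (Sum.inl (Sum.inl a)) : MvPolynomial (Vr m n) ℂ)) := by
      refine MvPolynomial.algHom_ext fun a => ?_
      rw [AlgHom.comp_apply, aeval_X, aeval_X]
      refine Fin.cases ?_ (fun i => ?_) i
      · simp [pt, kill_X, kv]
      · simp [pt, kill_X, kv]
    exact DFunLike.congr_fun h P
  simp_rw [h1]
  rw [← Finset.sum_mul, ← map_sum, sum_cf, kill_X, if_pos (by simp [kv]), zero_mul]

/-- evaluation of the equations -/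
theorem eval_eqn (m n : ℕ) (z : Vr m n → ℂ) (P : MvPolynomial (Fin n) ℂ) :
    eval z (eqn m n P) = ∑ i, eval z (cf m n i) * eval (fun a => eval z (pt m n i a)) P := by
  unfold eqn
  rw [map_sum]
  refine Finset.sum_congr rfl fun i _ => ?_
  rw [map_mul]
  congr 1
  have h : (aeval z : MvPolynomial (Vr m n) ℂ →ₐ[ℂ] ℂ).comp (aeval (pt m n i)) =
      (aeval (fun a => eval z (pt m n i a)) : MvPolynomial (Fin n) ℂ →ₐ[ℂ] ℂ) := by
    refine MvPolynomial.algHom_ext fun a => ?_
    rw [AlgHom.comp_apply, aeval_X, aeval_X]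
    rfl
  exact DFunLike.congr_fun h P

/-- the product of all proper partial sums of the coefficients -/
noncomputable def sep (m n : ℕ) : MvPolynomial (Vr m n) ℂ :=
  ∏ S ∈ (univ : Finset (Finset (Fin (m + 1)))).filter (fun S => S.Nonempty ∧ S ≠ univ),
    ∑ i ∈ S, cf m n i

/-- a test point -/
noncomputable def zt (m n : ℕ) : Vr m n → ℂ :=
  Sum.elim (Sum.elim (fun _ => 0) (fun _ => 1)) (fun _ => 0)

theorem sep_ne (m n : ℕ) : eval (zt m n) (sep m n) ≠ 0 := by
  unfold sep
  rw [map_prod, Finset.prod_ne_zero_iff]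
  intro S hS
  rw [mem_filter] at hS
  obtain ⟨-, hS1, hS2⟩ := hS
  have hcf : ∀ i, eval (zt m n) (cf m n i) = if i = 0 then -(m : ℂ) else 1 := by
    intro i
    refine Fin.cases ?_ (fun i => ?_) i
    · simp [cf, zt]
    · simp [cf, zt]
  rw [map_sum]
  simp_rw [hcf]
  have hcard : S.card < m + 1 := by
    have := Finset.card_lt_univ_of_notMem (s := S) (x := _) (Classical.choose_spec
      (by
        by_contra hcon
        push Not at hcon
        exact hS2 (Finset.eq_univ_iff_forall.mpr hcon) : ∃ x, x ∉ S))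
    simpa using this
  have hpos := hS1.card_pos
  by_cases h0 : (0 : Fin (m + 1)) ∈ S
  · rw [← Finset.add_sum_erase _ _ h0]
    have h1 : ∑ x ∈ S.erase 0, (if x = 0 then -(m : ℂ) else 1) = ((S.card - 1 : ℕ) : ℂ) := by
      rw [Finset.sum_congr rfl (g := fun _ => (1 : ℂ)), Finset.sum_const,
        Finset.card_erase_of_mem h0]
      · simp
      · intro x hx
        rw [if_neg (Finset.ne_of_mem_erase hx)]
    rw [h1, if_pos rfl]
    intro h2
    have h3 : ((S.card - 1 : ℕ) : ℂ) = (m : ℂ) := by linear_combination h2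
    have h4 : S.card - 1 = m := by exact_mod_cast h3
    omega
  · rw [Finset.sum_congr rfl (g := fun _ => (1 : ℂ)), Finset.sum_const]
    · simp only [nsmul_eq_mul, mul_one]
      exact_mod_cast hpos.ne'
    · intro x hx
      have hx0 : x ≠ 0 := by
        rintro rfl
        exact h0 hx
      rw [if_neg hx0]

/-- **Lower bound.** A polynomial `k`-regular map `ℂ^n → ℂ^N` (`k, n ≥ 1`) has
`N ≥ n(k-1)+1`. -/
theorem lower (k n N : ℕ) (hk : 1 ≤ k) (hn : 1 ≤ n) (f : (Fin n → ℂ) → (Fin N → ℂ))
    (hf : IsKRegular k n N f) (hp : IsPolynomialMap n N f) : n * (k - 1) + 1 ≤ N := by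
  classical
  obtain ⟨m, rfl⟩ : ∃ m, k = m + 1 := ⟨k - 1, by omega⟩
  obtain ⟨P, hP⟩ := hp
  let G : Finset (MvPolynomial (Vr m n) ℂ) := univ.image (fun j => eqn m n (P j))
  have hGcard : G.card ≤ N := Finset.card_image_le.trans (by simp)
  have hprime : (RingHom.ker (kill (kv m n))).IsPrime := RingHom.ker_isPrime _
  have hmin : RingHom.ker (kill (kv m n)) ∈
      (Ideal.span (G : Set (MvPolynomial (Vr m n) ℂ))).minimalPrimes := by
    refine ⟨⟨hprime, ?_⟩, ?_⟩
    · rw [Ideal.span_le]
      intro g hg
      rw [Finset.mem_coe, Finset.mem_image] at hg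
      obtain ⟨j, -, rfl⟩ := hg
      exact kill_eqn m n (P j)
    · rintro p' ⟨hp'prime, hIp'⟩ hp'le g hg
      have hsep : sep m n ∉ p' := by
        intro hs
        exact sep_ne m n (eval_zero_of_ker m n (zt m n) (fun b => rfl) (hp'le hs))
      have hrad : g * sep m n ∈ (Ideal.span (G : Set (MvPolynomial (Vr m n) ℂ))).radical := by
        rw [← vanishingIdeal_zeroLocus_eq_radical (K := ℂ), mem_vanishingIdeal_iff]
        intro z hz
        rw [mem_zeroLocus_iff] at hz
        have hz' : ∀ j, eval z (eqn m n (P j)) = 0 := fun j =>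
          hz _ (Ideal.subset_span (by
            rw [Finset.mem_coe, Finset.mem_image]; exact ⟨j, mem_univ _, rfl⟩))
        rw [map_mul]
        by_cases hs : eval z (sep m n) = 0
        · have : aeval z (sep m n) = eval z (sep m n) := rfl
          rw [this, hs, mul_zero]
        · unfold sep at hs
          rw [map_prod, ← ne_eq, Finset.prod_ne_zero_iff] at hs
          obtain ⟨h1, h2⟩ := hf.all_eq hn (fun i a => eval z (pt m n i a))
            (fun i => eval z (cf m n i)) (by
              funext j
              rw [Pi.zero_apply, ← hz' j, eval_eqn, Finset.sum_apply]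
              refine Finset.sum_congr rfl fun i _ => ?_
              rw [Pi.smul_apply, smul_eq_mul, hP]) (by
              intro S hS1 hS2
              have := hs S (by rw [mem_filter]; exact ⟨mem_univ _, hS1, hS2⟩)
              rwa [map_sum] at this)
          have h3 := h2 (by omega)
          rw [← map_sum, sum_cf, eval_X] at h3
          have hzb : ∀ b, z (Sum.inr b) = 0 := by
            rintro (⟨i, a⟩ | u)
            · have := congrFun (h1 (Fin.succ i) 0) a
              simpa [pt] using this
            · exact h3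
          have : aeval z g = eval z g := rfl
          rw [this, eval_zero_of_ker m n z hzb hg, zero_mul]
      obtain ⟨r, hr⟩ := hrad
      have h4 := hp'prime.mem_of_pow_mem r (hIp' hr)
      exact (hp'prime.mem_or_mem h4).resolve_right hsep
  have h5 := Ideal.height_le_card_of_mem_minimalPrimes_span_finset hmin
  have h6 := height_kill (kv m n)
  rw [card_kv] at h6
  have h7 : ((m * n + 1 : ℕ) : ℕ∞) ≤ (N : ℕ∞) :=
    h6.trans (h5.trans (by exact_mod_cast hGcard))
  have h8 : m * n + 1 ≤ N := by exact_mod_cast h7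
  rw [Nat.add_sub_cancel, mul_comm]
  exact h8

end Helper69.KReg
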