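import Pool.Agent.Helper954.Hopf.T2
import Pool.Agent.Helper82.BorsukUlam
import Pool.Agent.Helper69_KReg.Lower

set_option autoImplicit false

/-! # The lower bound for continuous k-regular maps, `k` prime -/

namespace Helper69.KReg

open Finset
open Pool.Agent.Helper954.Hopf (om)
open Pool.Agent.Helper954.Hopf.T2 (ee om_prim ee_norm ee_ne ee_zero ee_one ee_add ee_eq_one Sec QQ
  Sec_open Sec_disj Sec_rot QQ_rot fact1 QQ_open)

/-- there is no equivariant map from a free linear action of `ZMod p` (`p` odd) to a free scalar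
action in smaller dimension -/
theorem equivariant_zero (p : ℕ) [Fact p.Prime] (hp : p ≠ 2) {I : Type} [Fintype I]
    (κ : I → ZMod p) (hκ : ∀ i, κ i ≠ 0) {N : ℕ} (hN : N < Fintype.card I) (c : ZMod p)
    (hc : c ≠ 0) (g : (I → ℂ) → (Fin N → ℂ)) (hg : Continuous g)
    (hequi : ∀ v, g (fun i => om p ^ (κ i).val * v i) = fun j => ee p c * g v j) :
    ∃ v : I → ℂ, v ≠ 0 ∧ g v = 0 := by
  classical
  let sg : Bool → ℂ := fun b => if b then 1 else -1
  let O : Fin N × Bool → Set (I → ℂ) := fun q => {v | sg q.2 * g v q.1 ∈ QQ p}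
  let lab : Fin N × Bool → (I → ℂ) → ZMod p := fun q v =>
    if h : ∃ s, sg q.2 * g v q.1 ∈ Sec p s then c⁻¹ * h.choose else 0
  have hlabval : ∀ q v s, sg q.2 * g v q.1 ∈ Sec p s → lab q v = c⁻¹ * s := by
    intro q v s hs
    have h : ∃ s, sg q.2 * g v q.1 ∈ Sec p s := ⟨s, hs⟩
    show (if h : ∃ s, sg q.2 * g v q.1 ∈ Sec p s then c⁻¹ * h.choose else 0) = _
    rw [dif_pos h, Sec_disj h.choose_spec hs]
  have hcont : ∀ q : Fin N × Bool, Continuous (fun v => sg q.2 * g v q.1) := fun q =>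
    continuous_const.mul ((continuous_apply q.1).comp hg)
  obtain ⟨v, hv0, hv⟩ := Pool.Agent.Helper954.Hopf.Dold.D1c.dold_cover p hp κ hκ
    (J := Fin N × Bool) (by
      rw [Fintype.card_prod, Fintype.card_fin, Fintype.card_bool]; omega) O
    (fun q => QQ_open.preimage (hcont q)) lab
    (by
      intro q v hv
      obtain ⟨s, hs⟩ := Set.mem_iUnion.mp hv
      have h1 := ((Sec_open s).preimage (hcont q)).mem_nhds hs
      filter_upwards [h1] with y hy
      rw [hlabval q y s hy, hlabval q v s hs])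
    (by
      intro q v hv
      show sg q.2 * g (fun i => om p ^ (κ i).val * v i) q.1 ∈ QQ p
      rw [hequi]
      have : sg q.2 * (ee p c * g v q.1) = ee p c * (sg q.2 * g v q.1) := by ring
      show sg q.2 * (ee p c * g v q.1) ∈ QQ p
      rw [this, QQ_rot]
      exact hv)
    (by
      intro q v hv
      obtain ⟨s, hs⟩ := Set.mem_iUnion.mp hv
      rw [hlabval q v s hs, hlabval q _ (s + c)]
      · rw [mul_add, inv_mul_cancel₀ hc]
      · show sg q.2 * g (fun i => om p ^ (κ i).val * v i) q.1 ∈ Sec p (s + c)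
        rw [hequi]
        have : sg q.2 * (ee p c * g v q.1) = ee p c * (sg q.2 * g v q.1) := by ring
        show sg q.2 * (ee p c * g v q.1) ∈ Sec p (s + c)
        rw [this]
        exact Sec_rot c hs)
  refine ⟨v, hv0, ?_⟩
  funext j
  refine fact1 hp ?_ ?_
  · intro h
    refine hv (j, true) ?_
    show sg true * g v j ∈ QQ p
    simpa [sg] using h
  · intro h
    refine hv (j, false) ?_
    show sg false * g v j ∈ QQ p
    simpa [sg] using h

/-- proper nonempty subsums of the `p`-th roots of unity are nonzero -/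
theorem subsum_ne (p : ℕ) [Fact p.Prime] (B : Finset (ZMod p)) (h1 : B.Nonempty)
    (h2 : B ≠ univ) : ∑ l ∈ B, ee p l ≠ 0 := by
  classical
  intro h0
  have hp : p.Prime := Fact.out
  let q : Polynomial ℚ := ∑ i ∈ range p,
    Polynomial.C (if (i : ZMod p) ∈ B then (1 : ℚ) else 0) * Polynomial.X ^ i
  have hq : Polynomial.aeval (om p) q = 0 := by
    rw [← h0]
    simp only [q, map_sum, map_mul, map_pow, Polynomial.aeval_C, Polynomial.aeval_X]
    rw [← Finset.sum_filter_add_sum_filter_not (range p) (fun i : ℕ => (i : ZMod p) ∈ B)]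
    rw [Finset.sum_eq_zero (s := (range p).filter (fun i : ℕ => ¬ (i : ZMod p) ∈ B)), add_zero]
    · refine Finset.sum_bij' (fun i _ => (i : ZMod p)) (fun l _ => l.val) ?_ ?_ ?_ ?_ ?_
      · intro i hi
        exact (mem_filter.mp hi).2
      · intro l hl
        rw [mem_filter, mem_range]
        refine ⟨ZMod.val_lt l, ?_⟩
        rwa [ZMod.natCast_zmod_val]
      · intro i hi
        exact ZMod.val_cast_of_lt (mem_range.mp (mem_filter.mp hi).1)
      · intro l _
        exact ZMod.natCast_zmod_val l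
      · intro i hi
        rw [if_pos (mem_filter.mp hi).2, map_one, one_mul, ee,
          ZMod.val_cast_of_lt (mem_range.mp (mem_filter.mp hi).1)]
    · intro i hi
      rw [if_neg (mem_filter.mp hi).2, map_zero, zero_mul]
  have hdvd : Polynomial.cyclotomic p ℚ ∣ q := by
    rw [Polynomial.cyclotomic_eq_minpoly_rat (om_prim (p := p)) hp.pos]
    exact minpoly.dvd ℚ _ hq
  obtain ⟨r, hr⟩ := hdvd
  have hcoef : ∀ i < p, q.coeff i = if (i : ZMod p) ∈ B then 1 else 0 := by
    intro i hi
    simp only [q, Polynomial.finsetSum_coeff, Polynomial.coeff_C_mul, Polynomial.coeff_X_pow]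
    rw [Finset.sum_eq_single i]
    · simp
    · intro j _ hj
      have hij : ¬ (i = j) := fun e => hj e.symm
      simp [hij]
    · intro h; exact absurd (mem_range.mpr hi) h
  have hdeg : q.natDegree ≤ p - 1 := by
    refine Polynomial.natDegree_sum_le_of_forall_le _ _ ?_
    intro i hi
    refine (Polynomial.natDegree_C_mul_X_pow_le _ _).trans ?_
    have := mem_range.mp hi
    omega
  have hr0 : r.natDegree = 0 := by
    by_cases hrz : r = 0
    · rw [hrz, Polynomial.natDegree_zero]
    · have h3 := Polynomial.natDegree_mul (Polynomial.cyclotomic_ne_zero p ℚ) hrz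
      rw [← hr, Polynomial.natDegree_cyclotomic, Nat.totient_prime hp] at h3
      omega
  obtain ⟨a, ha⟩ : ∃ a, r = Polynomial.C a := ⟨_, Polynomial.eq_C_of_natDegree_eq_zero hr0⟩
  have hall : ∀ i < p, q.coeff i = a := by
    intro i hi
    rw [hr, ha, Polynomial.coeff_mul_C, Polynomial.cyclotomic_prime,
      Polynomial.finsetSum_coeff]
    simp only [Polynomial.coeff_X_pow]
    rw [Finset.sum_eq_single i]
    · simp
    · intro j _ hj
      have hij : ¬ (i = j) := fun e => hj e.symm
      simp [hij]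
    · intro h; exact absurd (mem_range.mpr hi) h
  obtain ⟨l, hl⟩ := h1
  have ha1 : a = 1 := by
    rw [← hall l.val (ZMod.val_lt l), hcoef l.val (ZMod.val_lt l), ZMod.natCast_zmod_val,
      if_pos hl]
  refine h2 (Finset.eq_univ_iff_forall.mpr fun t => ?_)
  by_contra ht
  have : (0 : ℚ) = 1 := by
    rw [← ha1, ← hall t.val (ZMod.val_lt t), hcoef t.val (ZMod.val_lt t),
      ZMod.natCast_zmod_val, if_neg ht]
  exact zero_ne_one this

/-- the coefficients `ee l + ψ` have no vanishing proper nonempty subsums if `ψ` is small -/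
theorem exists_small (p : ℕ) [Fact p.Prime] : ∃ δ : ℝ, 0 < δ ∧ ∀ ψ : ℂ, ‖ψ‖ < δ →
    ∀ B : Finset (ZMod p), B.Nonempty → B ≠ univ → ∑ l ∈ B, (ee p l + ψ) ≠ 0 := by
  classical
  let F : Set ℂ := (fun B : Finset (ZMod p) => -((∑ l ∈ B, ee p l) / (B.card : ℂ))) ''
    {B | B.Nonempty ∧ B ≠ univ}
  have hF : F.Finite := (Set.toFinite _).image _
  have h0 : (0 : ℂ) ∈ Fᶜ := by
    rintro ⟨B, ⟨h1, h2⟩, hB⟩
    have h3 := subsum_ne p B h1 h2
    have h4 : (B.card : ℂ) ≠ 0 := by exact_mod_cast h1.card_pos.ne'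
    exact (neg_ne_zero.mpr (div_ne_zero h3 h4)) hB
  obtain ⟨δ, hδ, hball⟩ := Metric.isOpen_iff.mp hF.isClosed.isOpen_compl 0 h0
  refine ⟨δ, hδ, fun ψ hψ B h1 h2 hs => ?_⟩
  have h4 : (B.card : ℂ) ≠ 0 := by exact_mod_cast h1.card_pos.ne'
  have h5 : ψ ∈ Fᶜ := hball (by rwa [Metric.mem_ball, dist_zero_right])
  refine h5 ⟨B, ⟨h1, h2⟩, ?_⟩
  rw [Finset.sum_add_distrib, Finset.sum_const, nsmul_eq_mul] at hs
  show -((∑ l ∈ B, ee p l) / (B.card : ℂ)) = ψ
  field_simp
  linear_combination -hs

/-- a homogeneous bounded coordinate -/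
noncomputable def psi (δ : ℝ) (ν : ℂ) : ℂ := ((δ / 2 / (1 + ‖ν‖) : ℝ) : ℂ) * ν

theorem psi_cont (δ : ℝ) : Continuous (psi δ) := by
  unfold psi
  refine Continuous.mul (Complex.continuous_ofReal.comp ?_) continuous_id
  refine Continuous.div continuous_const (by fun_prop) ?_
  intro x
  have := norm_nonneg x
  linarith

theorem psi_lt {δ : ℝ} (hδ : 0 < δ) (ν : ℂ) : ‖psi δ ν‖ < δ := by
  unfold psi
  have h := norm_nonneg ν
  have h1 : (0 : ℝ) < 1 + ‖ν‖ := by linarith
  rw [norm_mul, Complex.norm_real, Real.norm_eq_abs, abs_of_pos (by positivity)]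
  have h2 : δ / 2 / (1 + ‖ν‖) * ‖ν‖ ≤ δ / 2 := by
    rw [div_mul_eq_mul_div, div_le_iff₀ h1]
    nlinarith
  linarith

theorem psi_rot {δ : ℝ} (c ν : ℂ) (hc : ‖c‖ = 1) : psi δ (c * ν) = c * psi δ ν := by
  unfold psi
  rw [norm_mul, hc, one_mul]
  ring

theorem psi_eq_zero {δ : ℝ} (hδ : 0 < δ) {ν : ℂ} (h : psi δ ν = 0) : ν = 0 := by
  unfold psi at h
  have h0 := norm_nonneg ν
  have h1 : (0 : ℝ) < 1 + ‖ν‖ := by linarith
  rcases mul_eq_zero.mp h with h2 | h2
  · exfalso
    have h3 : δ / 2 / (1 + ‖ν‖) = 0 := by exact_mod_cast h2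
    have h4 : 0 < δ / 2 / (1 + ‖ν‖) := by positivity
    linarith
  · exact h2

/-- `all_eq` for families indexed by a finite type -/
theorem IsKRegular.all_eq' {k n N : ℕ} {f : (Fin n → ℂ) → (Fin N → ℂ)} (hn : 1 ≤ n) (hk : 0 < k)
    (hf : IsKRegular k n N f) {ι : Type} [Fintype ι] [DecidableEq ι] (e : Fin k ≃ ι)
    (x : ι → Fin n → ℂ) (lam : ι → ℂ) (hrel : ∑ i, lam i • f (x i) = 0)
    (hlam : ∀ S : Finset ι, S.Nonempty → S ≠ univ → ∑ i ∈ S, lam i ≠ 0) :
    (∀ i j, x i = x j) ∧ ∑ i, lam i = 0 := by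
  classical
  obtain ⟨h1, h2⟩ := hf.all_eq hn (x ∘ e) (lam ∘ e) (by
    rw [← hrel, ← e.sum_comp]
    rfl) (by
    intro S hS1 hS2
    have h3 := hlam (S.map e.toEmbedding) (by rwa [Finset.map_nonempty]) (by
      intro h4
      refine hS2 (Finset.eq_univ_iff_forall.mpr fun i => ?_)
      have h5 : e i ∈ S.map e.toEmbedding := by rw [h4]; exact mem_univ _
      rw [Finset.mem_map] at h5
      obtain ⟨j, hj, hji⟩ := h5
      rwa [← e.injective hji])
    rwa [Finset.sum_map] at h3)
  refine ⟨fun i j => ?_, ?_⟩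
  · have := h1 (e.symm i) (e.symm j)
    simpa using this
  · rw [← h2 hk, ← e.sum_comp]
    rfl

theorem sum_ee_mul (p : ℕ) [Fact p.Prime] (a : ZMod p) (ha : a ≠ 0) :
    ∑ l : ZMod p, ee p (a * l) = 0 := by
  have h1 : ee p a * ∑ l : ZMod p, ee p (a * l) = ∑ l : ZMod p, ee p (a * l) := by
    rw [Finset.mul_sum]
    refine Fintype.sum_equiv (Equiv.addRight (1 : ZMod p)) _ _ ?_
    intro l
    rw [← ee_add, Equiv.coe_addRight]
    congr 1
    ring
  have h2 : (ee p a - 1) * ∑ l : ZMod p, ee p (a * l) = 0 := by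
    rw [sub_mul, h1, one_mul, sub_self]
  rcases mul_eq_zero.mp h2 with h3 | h3
  · exact absurd (ee_eq_one (sub_eq_zero.mp h3)) ha
  · exact h3

/-- **Lower bound for continuous maps**, `k = p` an odd prime. -/
theorem lower_odd (p n N : ℕ) [Fact p.Prime] (hp : p ≠ 2) (hn : 1 ≤ n)
    (f : (Fin n → ℂ) → (Fin N → ℂ)) (hf : IsKRegular p n N f) : n * (p - 1) + 1 ≤ N := by
  classical
  by_contra hcon
  push Not at hcon
  have hpp : p.Prime := Fact.out
  let I : Type := Option (Fin n × {a : ZMod p // a ≠ 0})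
  let κ : I → ZMod p := fun i => i.elim (-1) (fun q => q.2)
  have hκ : ∀ i, κ i ≠ 0 := by
    rintro (_ | q)
    · exact neg_ne_zero.mpr one_ne_zero
    · exact q.2.2
  have hcard : Fintype.card I = n * (p - 1) + 1 := by
    show Fintype.card (Option (Fin n × {a : ZMod p // a ≠ 0})) = _
    rw [Fintype.card_option, Fintype.card_prod, Fintype.card_fin, Fintype.card_subtype_compl,
      Fintype.card_subtype_eq, ZMod.card]
  obtain ⟨δ, hδ, hsub⟩ := exists_small p
  let xx : (I → ℂ) → ZMod p → Fin n → ℂ := fun v l a =>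
    ∑ c : {a : ZMod p // a ≠ 0}, ee p (c * l) * v (some (a, c))
  let g : (I → ℂ) → (Fin N → ℂ) := fun v => ∑ l : ZMod p, (ee p l + psi δ (v none)) • f (xx v l)
  have hxx : ∀ l, Continuous (fun v => xx v l) := by
    intro l
    refine continuous_pi fun a => continuous_finsetSum _ fun c _ => ?_
    exact continuous_const.mul (continuous_apply _)
  have hg : Continuous g := by
    refine continuous_finsetSum _ fun l _ => ?_
    have h1 : Continuous (fun v : I → ℂ => ee p l + psi δ (v none)) :=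
      continuous_const.add ((psi_cont δ).comp (continuous_apply _))
    exact h1.smul (hf.1.comp (hxx l))
  obtain ⟨v, hv0, hv⟩ := equivariant_zero p hp κ hκ (N := N) (by omega) (-1)
    (neg_ne_zero.mpr one_ne_zero) g hg (by
      intro v
      have h1 : ∀ l, xx (fun i => om p ^ (κ i).val * v i) l = xx v (l + 1) := by
        intro l
        funext a
        refine Finset.sum_congr rfl fun c _ => ?_
        show ee p (c * l) * (ee p c * v (some (a, c))) = _
        rw [← mul_assoc, ← ee_add]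
        congr 2
        ring
      have h2 : psi δ (ee p (-1) * v none) = ee p (-1) * psi δ (v none) :=
        psi_rot _ _ (ee_norm _)
      show ∑ l : ZMod p, (ee p l + psi δ (ee p (-1) * v none)) •
        f (xx (fun i => om p ^ (κ i).val * v i) l) = _
      simp_rw [h1, h2]
      rw [← (Equiv.subRight (1 : ZMod p)).sum_comp]
      funext j
      rw [Finset.sum_apply]
      show _ = ee p (-1) * (∑ l : ZMod p, (ee p l + psi δ (v none)) • f (xx v l)) j
      rw [Finset.sum_apply, Finset.mul_sum]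
      refine Finset.sum_congr rfl fun l _ => ?_
      rw [Equiv.subRight_apply, sub_add_cancel, Pi.smul_apply, Pi.smul_apply, smul_eq_mul,
        smul_eq_mul, ← mul_assoc]
      congr 1
      rw [mul_add, ← ee_add]
      congr 2
      ring)
  let e : Fin p ≃ ZMod p := (Fintype.equivFinOfCardEq (ZMod.card p)).symm
  obtain ⟨h1, h2⟩ := hf.all_eq' hn hpp.pos e (xx v) (fun l => ee p l + psi δ (v none)) hv
    (fun B hB1 hB2 => hsub _ (psi_lt hδ _) B hB1 hB2)
  refine hv0 ?_
  funext i
  rcases i with _ | ⟨a, c⟩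
  · refine psi_eq_zero hδ ?_
    have h3 := sum_ee_mul p 1 one_ne_zero
    simp only [one_mul] at h3
    rw [Finset.sum_add_distrib, h3, zero_add, Finset.sum_const, nsmul_eq_mul, Finset.card_univ,
      ZMod.card] at h2
    exact (mul_eq_zero.mp h2).resolve_left (by exact_mod_cast hpp.ne_zero)
  · have h3 : ∑ l : ZMod p, ee p (-(c : ZMod p) * l) * xx v l a = 0 := by
      have : ∀ l, xx v l a = xx v 0 a := fun l => by rw [h1 l 0]
      simp_rw [this]
      rw [← Finset.sum_mul, sum_ee_mul p _ (neg_ne_zero.mpr c.2), zero_mul]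
    have h4 : ∑ l : ZMod p, ee p (-(c : ZMod p) * l) * xx v l a =
        ∑ c' : {a : ZMod p // a ≠ 0}, (∑ l : ZMod p, ee p (((c' : ZMod p) - c) * l)) *
          v (some (a, c')) := by
      simp only [xx, Finset.mul_sum, Finset.sum_mul]
      rw [Finset.sum_comm]
      refine Finset.sum_congr rfl fun c' _ => Finset.sum_congr rfl fun l _ => ?_
      rw [← mul_assoc, ← ee_add]
      congr 2
      ring
    rw [h4, Finset.sum_eq_single c] at h3
    · rw [sub_self] at h3
      simp only [zero_mul, ee_zero, Finset.sum_const, Finset.card_univ, ZMod.card,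
        nsmul_eq_mul, mul_one] at h3
      exact (mul_eq_zero.mp h3).resolve_left (by exact_mod_cast hpp.ne_zero)
    · intro c' _ hne
      rw [sum_ee_mul p _ (fun h0 => hne (Subtype.ext (sub_eq_zero.mp h0))), zero_mul]
    · intro h; exact absurd (mem_univ _) h

end Helper69.KReg
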