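import Pool.Agent.Helper69_KReg.Topo

set_option autoImplicit false

/-! # The lower bound for continuous k-regular maps, `k = 2` -/

namespace Helper69.KReg

open Finset

/-- **Lower bound for continuous maps**, `k = 2`. -/
theorem lower_two (n N : ℕ) (hn : 1 ≤ n) (f : (Fin n → ℂ) → (Fin N → ℂ))
    (hf : IsKRegular 2 n N f) : n + 1 ≤ N := by
  classical
  by_contra hcon
  push Not at hcon
  have hcard : Fintype.card ((Fin n × Fin 2) ⊕ Fin 2) = 2 * n + 1 + 1 := by
    simp only [Fintype.card_sum, Fintype.card_prod, Fintype.card_fin]; omega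
  let E : ((Fin n × Fin 2) ⊕ Fin 2) ≃ Fin (2 * n + 1 + 1) := Fintype.equivFinOfCardEq hcard
  let cv : (Fin (2 * n + 1 + 1) → ℝ) → Fin n → ℂ := fun x a =>
    (x (E (Sum.inl (a, 0))) : ℂ) + (x (E (Sum.inl (a, 1))) : ℂ) * Complex.I
  let nu : (Fin (2 * n + 1 + 1) → ℝ) → ℂ := fun x =>
    (x (E (Sum.inr 0)) : ℂ) + (x (E (Sum.inr 1)) : ℂ) * Complex.I
  have hcv : Continuous cv := by
    refine continuous_pi fun a => ?_
    exact (Complex.continuous_ofReal.comp (continuous_apply _)).add
      ((Complex.continuous_ofReal.comp (continuous_apply _)).mul continuous_const)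
  have hnu : Continuous nu :=
    (Complex.continuous_ofReal.comp (continuous_apply _)).add
      ((Complex.continuous_ofReal.comp (continuous_apply _)).mul continuous_const)
  have hcvneg : ∀ x, cv (-x) = -cv x := by
    intro x; funext a; simp [cv]; ring
  have hnuneg : ∀ x, nu (-x) = -nu x := by
    intro x; simp [nu]; ring
  let G : (Fin (2 * n + 1 + 1) → ℝ) → Fin N → ℂ := fun x =>
    (1 + psi 1 (nu x)) • f (cv x) + (-1 + psi 1 (nu x)) • f (-cv x)
  have hG : Continuous G := by
    have h1 : Continuous (fun x => psi 1 (nu x)) := (psi_cont 1).comp hnu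
    exact ((continuous_const.add h1).smul (hf.1.comp hcv)).add
      ((continuous_const.add h1).smul (hf.1.comp hcv.neg))
  have hGneg : ∀ x, G (-x) = -G x := by
    intro x
    have h1 : psi 1 (-nu x) = -psi 1 (nu x) := by
      have := psi_rot (δ := 1) (-1) (nu x) (by simp)
      simpa using this
    simp only [G, hcvneg, hnuneg, h1, neg_neg]
    module
  let F : (Fin (2 * n + 1 + 1) → ℝ) → (Fin (2 * n + 1) → ℝ) := fun x i =>
    if h : (i : ℕ) / 2 < N then
      (if (i : ℕ) % 2 = 0 then (G x ⟨(i : ℕ) / 2, h⟩).re else (G x ⟨(i : ℕ) / 2, h⟩).im) else 0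
  have hF : Continuous F := by
    refine continuous_pi fun i => ?_
    by_cases h : (i : ℕ) / 2 < N
    · by_cases h2 : (i : ℕ) % 2 = 0
      · simp only [F, h, h2, dif_pos, if_true]
        exact Complex.continuous_re.comp ((continuous_apply _).comp hG)
      · simp only [F, h, h2, dif_pos, if_false]
        exact Complex.continuous_im.comp ((continuous_apply _).comp hG)
    · simp only [F, h, dif_neg, not_false_eq_true]
      exact continuous_const
  have hFneg : ∀ x, F (-x) = -F x := by
    intro x
    funext i
    rw [Pi.neg_apply]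
    by_cases h : (i : ℕ) / 2 < N
    · by_cases h2 : (i : ℕ) % 2 = 0
      · simp only [F, h, h2, dif_pos, if_true, hGneg, Pi.neg_apply, Complex.neg_re]
      · simp only [F, h, h2, dif_pos, if_false, hGneg, Pi.neg_apply, Complex.neg_im]
    · simp only [F, h, dif_neg, not_false_eq_true, neg_zero]
  obtain ⟨x, hxK, hx⟩ := Pool.Agent.Helper82.BorsukUlam.borsuk_ulam (2 * n + 1) F hF hFneg
  have hGx : G x = 0 := by
    funext j
    have hj := j.2
    have h1 := congrFun hx ⟨2 * j, by omega⟩
    have h2 := congrFun hx ⟨2 * j + 1, by omega⟩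
    have e1 : (2 * (j : ℕ)) / 2 = j := by omega
    have e2 : (2 * (j : ℕ) + 1) / 2 = j := by omega
    have e3 : (2 * (j : ℕ)) % 2 = 0 := by omega
    have e4 : (2 * (j : ℕ) + 1) % 2 ≠ 0 := by omega
    simp only [F, e1, e3, hj, dif_pos, if_true, Pi.zero_apply] at h1
    simp only [F, e2, e4, hj, dif_pos, if_false, Pi.zero_apply] at h2
    exact Complex.ext h1 h2
  have hpsi : ‖psi 1 (nu x)‖ < 1 := psi_lt one_pos _
  by_cases hv : cv x = 0
  · have h1 : G x = (2 * psi 1 (nu x)) • f 0 := by
      simp only [G, hv, neg_zero]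
      module
    rw [hGx] at h1
    have h2 : (2 * psi 1 (nu x)) = 0 ∨ f 0 = 0 := smul_eq_zero.mp h1.symm
    rcases h2 with h2 | h2
    · have h3 : psi 1 (nu x) = 0 := (mul_eq_zero.mp h2).resolve_left two_ne_zero
      have h4 := psi_eq_zero one_pos h3
      have hx0 : x = 0 := by
        funext i
        obtain ⟨q, rfl⟩ := E.surjective i
        rcases q with ⟨a, b⟩ | b
        · have h5 := congrFun hv a
          simp only [cv, Pi.zero_apply, Complex.ext_iff] at h5
          simp at h5
          fin_cases b
          · exact h5.1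
          · exact h5.2
        · simp only [nu, Complex.ext_iff] at h4
          simp at h4
          fin_cases b
          · exact h4.1
          · exact h4.2
      rw [hx0] at hxK
      simp [Pool.Agent.Helper82.BorsukUlam.K] at hxK
    · have hne : (fun _ => 1 : Fin n → ℂ) ≠ 0 := by
        intro h3
        have := congrFun h3 ⟨0, hn⟩
        simp at this
      have h3 := hf.2 ![0, fun _ => 1] (by
        intro a b hab
        fin_cases a <;> fin_cases b
        · rfl
        · exact absurd hab.symm hne
        · exact absurd hab hne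
        · rfl)
      exact h3.ne_zero 0 h2
  · have hne : cv x ≠ -cv x := by
      intro h
      refine hv ?_
      funext a
      have h1 := congrFun h a
      rw [Pi.neg_apply] at h1
      have h2 : (2 : ℂ) * cv x a = 0 := by linear_combination h1
      exact (mul_eq_zero.mp h2).resolve_left two_ne_zero
    have h3 := hf.2 ![cv x, -cv x] (by
      intro a b hab
      fin_cases a <;> fin_cases b
      · rfl
      · exact absurd hab hne
      · exact absurd hab.symm hne
      · rfl)
    rw [Fintype.linearIndependent_iff] at h3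
    have h4 := h3 ![1 + psi 1 (nu x), -1 + psi 1 (nu x)] (by
      rw [Fin.sum_univ_two]
      exact hGx)
    have h5 : 1 + psi 1 (nu x) = 0 := h4 0
    have h6 : psi 1 (nu x) = -1 := by linear_combination h5
    rw [h6] at hpsi
    simp at hpsi

/-- `k = 1` -/
theorem lower_one (n N : ℕ) (f : (Fin n → ℂ) → (Fin N → ℂ)) (hf : IsKRegular 1 n N f) :
    1 ≤ N := by
  by_contra hcon
  have hN : N = 0 := by omega
  subst hN
  have h := hf.2 (fun _ => 0) (fun a b _ => Subsingleton.elim a b)
  exact h.ne_zero 0 (Subsingleton.elim _ _)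

end Helper69.KReg
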