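import Pool.Agent.Helper69_KReg.Core2

set_option autoImplicit false

/-! # Polynomial k-regular maps `ℂ^n → ℂ^(n(k-1)+1)` for `k ≤ 5` -/

namespace Helper69.KReg

open Finset MvPolynomial

/-- to show that a family of polynomials gives a `k`-regular map it suffices to look at relations
with nonzero coefficients between at most `k` distinct points -/
theorem exists_of_family {k n N : ℕ} {κ : Type} [Fintype κ] (P : κ → MvPolynomial (Fin n) ℂ)
    (hN : Fintype.card κ ≤ N)
    (h : ∀ (ι : Type) [Fintype ι] (x : ι → Fin n → ℂ) (lam : ι → ℂ), Function.Injective x →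
      (∀ i, lam i ≠ 0) → Fintype.card ι ≤ k →
      (∀ j : κ, ∑ i, lam i * eval (x i) (P j) = 0) → IsEmpty ι) :
    ∃ f : (Fin n → ℂ) → (Fin N → ℂ), IsKRegular k n N f ∧ IsPolynomialMap n N f := by
  classical
  obtain ⟨e⟩ : Nonempty (κ ↪ Fin N) :=
    Function.Embedding.nonempty_of_card_le (by rwa [Fintype.card_fin])
  let P' : Fin N → MvPolynomial (Fin n) ℂ := Function.extend e P 0
  have hP' : ∀ j, P' (e j) = P j := fun j => e.injective.extend_apply P 0 j
  refine ⟨fun x j => eval x (P' j), ⟨?_, ?_⟩, ⟨P', fun x j => rfl⟩⟩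
  · exact continuous_pi fun j => MvPolynomial.continuous_eval (P' j)
  · intro x hx
    rw [Fintype.linearIndependent_iff]
    intro c hc
    by_contra hcon
    push Not at hcon
    obtain ⟨i0, hi0⟩ := hcon
    have hem := h {i : Fin k // c i ≠ 0} (fun i => x i) (fun i => c i)
      (fun a b hab => Subtype.ext (hx hab)) (fun i => i.2)
      ((Fintype.card_subtype_le _).trans (by rw [Fintype.card_fin])) (by
        intro j
        have h1 := congrFun hc (e j)
        simp only [Finset.sum_apply, Pi.smul_apply, smul_eq_mul, Pi.zero_apply, hP'] at h1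
        refine Eq.trans ?_ h1
        rw [← Finset.sum_subtype (Finset.univ.filter fun i => c i ≠ 0) (by simp)
          (fun i => c i * eval (x i) (P j))]
        refine Finset.sum_filter_of_ne ?_
        intro i _ hi h0
        exact hi (by rw [h0, zero_mul]))
    exact hem.false ⟨i0, hi0⟩

/-- the coordinate polynomials, extended by zero -/
noncomputable def PX (n : ℕ) (i : ℕ) : MvPolynomial (Fin n) ℂ :=
  if h : i < n then X ⟨i, h⟩ else 0

/-- the sum of `x_i x_j` over `i + j = s` -/
noncomputable def PH (n : ℕ) (s : ℕ) : MvPolynomial (Fin n) ℂ :=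
  ∑ i ∈ range (s + 1), PX n i * PX n (s - i)

section

variable {n : ℕ} {ι : Type} [Fintype ι]

/-- coordinate functions of a family of points -/
noncomputable def cX (n : ℕ) (x : ι → Fin n → ℂ) (i : ℕ) (p : ι) : ℂ := eval (x p) (PX n i)

theorem rel_of (x : ι → Fin n → ℂ) (lam : ι → ℂ) (hx : Function.Injective x)
    (hlam : ∀ i, lam i ≠ 0) (h1 : ∑ i, lam i * eval (x i) (1 : MvPolynomial (Fin n) ℂ) = 0)
    (h2 : ∀ j : Fin n, ∑ i, lam i * eval (x i) (PX n j) = 0) : Rel n lam (cX n x) where
  lam_ne := hlam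
  zero := by
    intro i hi p
    simp [cX, PX, Nat.not_lt.mpr hi]
  inj := by
    intro p q hpq
    refine hx ?_
    funext j
    have := hpq j
    simpa [cX, PX] using this
  one := by simpa using h1
  lin := by
    intro i
    by_cases hi : i < n
    · exact h2 ⟨i, hi⟩
    · simp [cX, PX, hi]

theorem sum_PH (x : ι → Fin n → ℂ) (lam : ι → ℂ) (s : ℕ) :
    ∑ i, lam i * eval (x i) (PH n s) = ∑ i ∈ range (s + 1), Q lam (cX n x) i (s - i) := by
  unfold Q PH
  rw [Finset.sum_comm]
  refine Finset.sum_congr rfl fun p _ => ?_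
  rw [map_sum, Finset.mul_sum]
  refine Finset.sum_congr rfl fun i _ => ?_
  simp [cX]

end

/-- the upper bound: polynomial `k`-regular maps to `ℂ^N`, `N ≥ n(k-1)+1`, for `1 ≤ k ≤ 5` -/
theorem upper (k n N : ℕ) (hk1 : 1 ≤ k) (hk : k ≤ 5) (hn : 1 ≤ n) (hN : n * (k - 1) + 1 ≤ N) :
    ∃ f : (Fin n → ℂ) → (Fin N → ℂ), IsKRegular k n N f ∧ IsPolynomialMap n N f := by
  have hk5 : k = 1 ∨ k = 2 ∨ k = 3 ∨ k = 4 ∨ k = 5 := by omega
  rcases hk5 with rfl | rfl | rfl | rfl | rfl
  · refine exists_of_family (κ := Unit) (fun _ => 1) (by simpa using hN) ?_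
    intro ι _ x lam hx hlam hcard hrel
    by_contra hne
    rw [not_isEmpty_iff] at hne
    obtain ⟨p⟩ := hne
    have hsub : Subsingleton ι := Fintype.card_le_one_iff_subsingleton.mp hcard
    have huniv : (Finset.univ : Finset ι) = {p} := by
      ext q
      simp [Subsingleton.elim q p]
    have h1 := hrel ()
    rw [huniv, Finset.sum_singleton] at h1
    simp at h1
    exact hlam p h1
  · refine exists_of_family (κ := Unit ⊕ Fin n) (Sum.elim (fun _ => 1) (fun i => PX n i))
      (by simp only [Fintype.card_sum, Fintype.card_unit, Fintype.card_fin]; omega) ?_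
    intro ι _ x lam hx hlam hcard hrel
    have R := rel_of x lam hx hlam (hrel (Sum.inl ())) (fun j => hrel (Sum.inr j))
    exact R.core_three (by omega) (fun h => by omega)
  · refine exists_of_family (κ := Unit ⊕ Fin n ⊕ Fin n)
      (Sum.elim (fun _ => 1) (Sum.elim (fun i => PX n i) (fun i => PX n i ^ 2)))
      (by simp only [Fintype.card_sum, Fintype.card_unit, Fintype.card_fin]; omega) ?_
    intro ι _ x lam hx hlam hcard hrel
    have R := rel_of x lam hx hlam (hrel (Sum.inl ())) (fun j => hrel (Sum.inr (Sum.inl j)))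
    refine R.core_three hcard (fun _ i => ?_)
    by_cases hi : i < n
    · have := hrel (Sum.inr (Sum.inr ⟨i, hi⟩))
      rw [← this]
      unfold Q
      refine Finset.sum_congr rfl fun p _ => ?_
      simp [cX, pow_two]
    · exact R.Q_zero (by omega) i
  · refine exists_of_family (κ := Unit ⊕ Fin n ⊕ Fin n ⊕ Fin n)
      (Sum.elim (fun _ => 1) (Sum.elim (fun i => PX n i) (Sum.elim (fun i => PH n i)
        (fun i => PX n i ^ 3 - PH n (n + i)))))
      (by simp only [Fintype.card_sum, Fintype.card_unit, Fintype.card_fin]; omega) ?_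
    intro ι _ x lam hx hlam hcard hrel
    have R := rel_of x lam hx hlam (hrel (Sum.inl ())) (fun j => hrel (Sum.inr (Sum.inl j)))
    refine R.core_four hcard (fun s hs => ?_) (fun i hi => ?_)
    · rw [← sum_PH]
      exact hrel (Sum.inr (Sum.inr (Sum.inl ⟨s, hs⟩)))
    · have := hrel (Sum.inr (Sum.inr (Sum.inr ⟨i, hi⟩)))
      simp only [Sum.elim_inr, map_sub, map_pow, mul_sub, Finset.sum_sub_distrib, sum_PH] at this
      rw [sub_eq_zero] at this
      exact this
  · refine exists_of_family (κ := Unit ⊕ Fin n ⊕ Fin n ⊕ Fin n ⊕ Fin n)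
      (Sum.elim (fun _ => 1) (Sum.elim (fun i => PX n i) (Sum.elim (fun i => PX n i ^ 2)
        (Sum.elim (fun i => if (i : ℕ) = 0 then PX n (n - 1) ^ 4 else PH n i)
        (fun i => PX n i ^ 3 - (if (i : ℕ) = 0 then 0 else PX n (i - 1) ^ 4) - PH n (n + i))))))
      (by simp only [Fintype.card_sum, Fintype.card_unit, Fintype.card_fin]; omega) ?_
    intro ι _ x lam hx hlam hcard hrel
    have R := rel_of x lam hx hlam (hrel (Sum.inl ())) (fun j => hrel (Sum.inr (Sum.inl j)))
    have hdiag : ∀ i, Q lam (cX n x) i i = 0 := by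
      intro i
      by_cases hi : i < n
      · have := hrel (Sum.inr (Sum.inr (Sum.inl ⟨i, hi⟩)))
        rw [← this]
        unfold Q
        refine Finset.sum_congr rfl fun p _ => ?_
        simp [cX, pow_two]
      · exact R.Q_zero (by omega) i
    refine R.core_five hcard hdiag (fun s hs => ?_) ?_ (fun i hi => ?_) ?_
    · rcases Nat.eq_zero_or_pos s with rfl | hs0
      · rw [zero_add, Finset.sum_range_one]
        exact hdiag 0
      · have := hrel (Sum.inr (Sum.inr (Sum.inr (Sum.inl ⟨s, hs⟩))))
        simp only [Sum.elim_inr, Sum.elim_inl, if_neg hs0.ne', sum_PH] at this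
        exact this
    · have := hrel (Sum.inr (Sum.inr (Sum.inr (Sum.inr ⟨0, by omega⟩))))
      simp only [Sum.elim_inr, if_true, map_sub, map_pow, sub_zero, mul_sub,
        Finset.sum_sub_distrib, sum_PH, add_zero] at this
      rw [sub_eq_zero] at this
      exact this
    · have := hrel (Sum.inr (Sum.inr (Sum.inr (Sum.inr ⟨i + 1, hi⟩))))
      simp only [Sum.elim_inr, Nat.succ_ne_zero, if_false, map_sub, map_pow, mul_sub,
        Finset.sum_sub_distrib, sum_PH, Nat.add_sub_cancel] at this
      rw [sub_eq_zero, sub_eq_iff_eq_add] at this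
      rw [add_comm (∑ p, lam p * cX n x i p ^ 4)]
      exact this
    · have := hrel (Sum.inr (Sum.inr (Sum.inr (Sum.inl ⟨0, by omega⟩))))
      simp only [Sum.elim_inr, Sum.elim_inl, if_true, map_pow] at this
      exact this

end Helper69.KReg
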